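import Pool.Agent.Helper52.KT.St

set_option autoImplicit false

namespace Pool.Agent.Helper72.KT

open Pool.Agent.Helper26.Kempe Pool.Agent.Helper52.KT Pool.Agent.Helper52.KT.St
open Pool.Agent.Helper52.KR (N Zc Mn Hs)

open scoped Classical in
private theorem ce_zero {V : Type} [Fintype V] (G : SimpleGraph V) (t : ℝ)
    (h : ∀ x, ((N G x).card : ℝ) ≤ t) (x : V) : ce G t x = 0 := by
  unfold ce
  apply Finset.card_eq_zero.2
  apply Finset.filter_eq_empty_iff.2
  rintro y - ⟨-, h2⟩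
  have h3 : ((N G x ∩ N G y).card : ℝ) ≤ ((N G x).card : ℝ) := by
    exact_mod_cast Finset.card_le_card Finset.inter_subset_left
  exact absurd h2 (not_lt.2 (h3.trans (h x)))

theorem hRO : RO := by
  classical
  intro hPO hFN δ hδ
  set δ' : ℝ := min δ 1 with hδ'
  have hδ'0 : 0 < δ' := lt_min hδ one_pos
  have hδ'1 : δ' ≤ 1 := min_le_right _ _
  have hδ'δ : δ' ≤ δ := min_le_left _ _
  obtain ⟨M, D₀, hPO⟩ := hPO (δ' / 16) (by positivity) (by linarith)
  obtain ⟨η, Δ₀, hη, hFN⟩ := hFN (1 / 2) 0 δ' 1 D₀ (by norm_num) le_rfl (by norm_num) hδ'0 hδ'1 one_pos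
  refine ⟨2 * M + 2, Δ₀, ?_⟩
  intro V _ _ G _ k hΔ hodd hk f g hf hg
  have hN : ∀ x, (N G x).card ≤ G.maxDegree := by
    intro x
    have h1 : (N G x).card = G.degree x := by
      rw [← SimpleGraph.card_neighborFinset_eq_degree]
      congr 1
      ext y
      simp [N]
    rw [h1]
    exact G.degree_le_maxDegree x
  have hce : ∀ x, ce G (G.maxDegree : ℝ) x = 0 :=
    ce_zero G _ (fun x => by exact_mod_cast hN x)
  refine hFN V G G.maxDegree k (G.maxDegree : ℝ) hΔ (by positivity) le_rfl hN ?_ ?_ ?_ f g hf hg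
  · intro x
    rw [hce x]
    push_cast
    positivity
  · intro H hle D' k' t' hD' ht' hdeg _ hk'
    refine hPO V H D' k' hD' ?_ hdeg (by linarith)
    intro x w hw
    have h1 := hodd x (w.mapLe hle) (by rw [SimpleGraph.Walk.length_map]; exact hw)
    rwa [SimpleGraph.Walk.length_map] at h1
  · have h1 : δ' * (G.maxDegree : ℝ) ≤ δ * G.maxDegree :=
      mul_le_mul_of_nonneg_right hδ'δ (by positivity)
    linarith

end Pool.Agent.Helper72.KT
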